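import Pool.Agent.H75.CP.MaF

/-!
MP_37b730_gt, closure properties of `CP` (helper5).  In a group of type FP in `CP` the orders of the roots of a central
element `z ≠ 1` are bounded.
-/

set_option autoImplicit false
set_option linter.all false

namespace Pool.Agent.H5.CL

open Pool.Agent.H5.CP Pool.Agent.H75.CP

theorem Bd_tf {Γ : Type} [Group Γ] (h : IsTypeFP Γ) (x : Γ) (n : ℕ) (hn : 0 < n)
    (hx : x ^ n = 1) : x = 1 :=
  FPcd_tf h x (isOfFinOrder_iff_pow_eq_one.2 ⟨n, hn, hx⟩)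

theorem Bd_free {A : Type} [AddCommGroup A] [Module.Free ℤ A] [Module.Finite ℤ A] (a : A)
    (ha : a ≠ 0) : ∃ N : ℕ, ∀ (n : ℕ) (b : A), n • b = a → n ≤ N := by
  have e := Module.Free.chooseBasis ℤ A
  have h1 : ∃ i, e.repr a i ≠ 0 := by
    by_contra hcon
    push Not at hcon
    apply ha
    apply e.repr.injective
    ext i
    rw [map_zero, Finsupp.zero_apply, hcon i]
  obtain ⟨i, hi⟩ := h1
  refine ⟨(e.repr a i).natAbs, fun n b hb => ?_⟩
  have h2 : (n : ℤ) ∣ e.repr a i := by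
    refine ⟨e.repr b i, ?_⟩
    rw [← hb, map_nsmul, Finsupp.smul_apply, nsmul_eq_mul]
  have h3 := Int.natAbs_dvd_natAbs.2 h2
  rw [Int.natAbs_natCast] at h3
  exact Nat.le_of_dvd (Int.natAbs_pos.2 hi) h3

theorem Bd_main {Γ : Type} [Group Γ] (h : IsTypeFP Γ) (hc : InCP Γ) (z : Γ)
    (hz : z ∈ Subgroup.center Γ) (hz1 : z ≠ 1) :
    ∃ N : ℕ, ∀ (n : ℕ) (u : Γ), 0 < n → u ^ n = z → n ≤ N := by
  have hf : (Subgroup.center Γ).FG := CenR_center h hc.2
  obtain ⟨s, hs, hb⟩ := (MainA_bd h (Subgroup.center Γ) le_rfl hf).1 hc.2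
  let hcomm : CommGroup (Subgroup.center Γ) :=
    { (inferInstance : Group (Subgroup.center Γ)) with
      mul_comm := fun a b => Subtype.ext (Subgroup.mem_center_iff.1 b.2 a.1) }
  have hfg : Group.FG (Subgroup.center Γ) := (Group.fg_iff_subgroup_fg _).2 hf
  have hfg' : AddGroup.FG (Additive (Subgroup.center Γ)) := GroupFG.iff_add_fg.1 hfg
  have hfin : Module.Finite ℤ (Additive (Subgroup.center Γ)) :=
    Module.Finite.iff_addGroup_fg.2 hfg'
  have htf : IsAddTorsionFree (Additive (Subgroup.center Γ)) := by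
    refine ⟨fun n hn a b hab => ?_⟩
    have h1 : n • (a - b) = 0 := by
      rw [nsmul_sub]
      exact sub_eq_zero.2 hab
    have h2 : (((a - b).toMul : Subgroup.center Γ) : Γ) ^ n = 1 := by
      have h3 : ((a - b).toMul : Subgroup.center Γ) ^ n = 1 := by
        have := congrArg Additive.toMul h1
        simpa using this
      have := congrArg Subtype.val h3
      simpa using this
    have h4 : (((a - b).toMul : Subgroup.center Γ) : Γ) = 1 :=
      FPcd_tf h _ (isOfFinOrder_iff_pow_eq_one.2 ⟨n, Nat.pos_of_ne_zero hn, h2⟩)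
    have h5 : ((a - b).toMul : Subgroup.center Γ) = 1 := Subtype.ext h4
    have h6 : a - b = 0 := by
      apply Additive.toMul.injective
      exact h5
    exact sub_eq_zero.1 h6
  have hfree : Module.Free ℤ (Additive (Subgroup.center Γ)) := inferInstance
  have hzs : (⟨z, hz⟩ : Subgroup.center Γ) ^ s ≠ 1 := by
    intro h1
    apply hz1
    exact Bd_tf h z s hs (by simpa using congrArg Subtype.val h1)
  obtain ⟨N, hN⟩ := Bd_free (A := Additive (Subgroup.center Γ))
    (Additive.ofMul ((⟨z, hz⟩ : Subgroup.center Γ) ^ s)) (fun h1 => hzs h1)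
  refine ⟨N, fun n u hn hu => ?_⟩
  have h1 : ((u : Γ) : Γ ⧸ Subgroup.center Γ) ^ n = 1 := by
    rw [← QuotientGroup.mk_pow, QuotientGroup.eq_one_iff, hu]
    exact hz
  have h2 : ((u : Γ) : Γ ⧸ Subgroup.center Γ) ^ s = 1 :=
    hb _ (isOfFinOrder_iff_pow_eq_one.2 ⟨n, hn, h1⟩)
  rw [← QuotientGroup.mk_pow, QuotientGroup.eq_one_iff] at h2
  refine hN n (Additive.ofMul ⟨u ^ s, h2⟩) ?_
  have h3 : (⟨u ^ s, h2⟩ : Subgroup.center Γ) ^ n = (⟨z, hz⟩ : Subgroup.center Γ) ^ s := by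
    apply Subtype.ext
    push_cast
    rw [← hu, ← pow_mul, ← pow_mul, mul_comm]
  exact congrArg Additive.ofMul h3

/-- a group of type FP in which the roots of central elements have bounded order is in `CP` -/
theorem Bd_if {Γ : Type} [Group Γ] (h : IsTypeFP Γ)
    (hr : ∀ z ∈ Subgroup.center Γ, z ≠ 1 → ∃ p k : ℕ, p.Prime ∧ ¬ ∃ u : Γ, u ^ (p ^ k) = z) :
    InCP Γ := MaF_if h hr

end Pool.Agent.H5.CL
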