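import Mathlib

/-!
MP_37b730_gt, closure properties of `CP` (helper5): a lemma on automorphisms of trees.
-/

set_option autoImplicit false
set_option linter.all false

namespace Pool.Agent.H5.CL

open SimpleGraph

theorem Tr_mem {V : Type} {T : SimpleGraph V} (hT : T.IsTree) {r x y : V} (h : T.Adj x y)
    (hd : T.dist r x = T.dist r y + 1) {q : T.Walk r x} (hq : q.IsPath) : y ∈ q.support := by
  classical
  obtain ⟨p, hp, hpl⟩ := (hT.connected r y).exists_path_of_dist
  refine hT.isAcyclic.mem_support_of_ne_mem_support_of_adj_of_isPath hq hp h ?_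
  intro hx
  have h1 : T.dist r x ≤ (p.takeUntil x hx).length := dist_le _
  have h2 : (p.takeUntil x hx).length ≤ p.length := Walk.length_takeUntil_le p hx
  omega

theorem Tr_uniq {V : Type} {T : SimpleGraph V} (hT : T.IsTree) {r x y y' : V} (h : T.Adj x y)
    (h' : T.Adj x y') (hd : T.dist r x = T.dist r y + 1) (hd' : T.dist r x = T.dist r y' + 1) :
    y = y' := by
  obtain ⟨q, hq, hql⟩ := (hT.connected r x).exists_path_of_dist
  rw [hT.isAcyclic.eq_penultimate_of_adj_end hq h (Tr_mem hT h hd hq),
    hT.isAcyclic.eq_penultimate_of_adj_end hq h' (Tr_mem hT h' hd' hq)]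

theorem Tr_nb {V : Type} {T : SimpleGraph V} (hT : T.IsTree) (c : ℕ → V)
    (h1 : ∀ i, T.Adj (c i) (c (i + 1))) (h2 : ∀ i, c i ≠ c (i + 2)) (n : ℕ) :
    T.dist (c 0) (c n) = n ∧ T.dist (c 0) (c (n + 1)) = n + 1 := by
  induction n with
  | zero => exact ⟨dist_self, dist_eq_one_iff_adj.2 (h1 0)⟩
  | succ n ih =>
    refine ⟨ih.2, ?_⟩
    rcases hT.dist_eq_dist_add_one_of_adj (c 0) (h1 (n + 1)) with h | h
    · exfalso
      refine h2 n (Tr_uniq hT (h1 n).symm (h1 (n + 1)) ?_ h)
      rw [ih.1, ih.2]
    · rw [h, ih.2]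

theorem Tr_main {V : Type} {T : SimpleGraph V} (hT : T.IsTree) (φ : T ≃g T)
    (h2 : ∀ v, φ (φ v) ≠ v) : ∃ v, ∀ n : ℕ, n ≤ T.dist v (φ^[n] v) := by
  classical
  have hne : Nonempty V := hT.connected.nonempty
  obtain ⟨v, hv⟩ : ∃ v, ∀ w, T.dist v (φ v) ≤ T.dist w (φ w) := by
    obtain ⟨v, hv⟩ := Nat.sInf_mem (Set.range_nonempty (fun v => T.dist v (φ v)))
    refine ⟨v, fun w => ?_⟩
    have h3 : sInf (Set.range (fun v => T.dist v (φ v))) ≤ T.dist w (φ w) :=
      Nat.sInf_le ⟨w, rfl⟩
    rw [← hv] at h3
    exact h3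
  set d := T.dist v (φ v) with hd
  have hd0 : 0 < d := by
    rw [Nat.pos_iff_ne_zero]
    intro h0
    have h3 : v = φ v := (hT.connected.dist_eq_zero_iff).1 h0
    exact h2 v (by rw [← h3, ← h3])
  obtain ⟨p, hp, hpl⟩ := (hT.connected v (φ v)).exists_path_of_dist
  have hpl' : p.length = d := hpl
  have hadj : ∀ q r, r < d → T.Adj (φ^[q] (p.getVert r)) (φ^[q] (p.getVert (r + 1))) := by
    intro q r hr
    have h3 : T.Adj (p.getVert r) (p.getVert (r + 1)) := p.adj_getVert_succ (by omega)
    induction q with
    | zero => exact h3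
    | succ q ih =>
      rw [Function.iterate_succ_apply', Function.iterate_succ_apply']
      exact φ.map_adj_iff.2 ih
  have hinj : ∀ q, Function.Injective (φ^[q]) := fun q => Function.Injective.iterate φ.injective q
  let c : ℕ → V := fun i => φ^[i / d] (p.getVert (i % d))
  have hend : ∀ q, φ^[q + 1] v = φ^[q] (p.getVert d) := by
    intro q
    rw [← hpl', p.getVert_length, Function.iterate_succ_apply]
  have h0 : p.getVert 0 = v := p.getVert_zero
  have hc : ∀ q r, r ≤ d → c (q * d + r) = φ^[q] (p.getVert r) := by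
    intro q r hr
    rcases Nat.lt_or_ge r d with h | h
    · show φ^[(q * d + r) / d] (p.getVert ((q * d + r) % d)) = _
      have e1 : (q * d + r) / d = q := by
        rw [Nat.add_comm, Nat.add_mul_div_right _ _ hd0, Nat.div_eq_of_lt h, zero_add]
      have e2 : (q * d + r) % d = r := by
        rw [Nat.add_comm, Nat.add_mul_mod_self_right, Nat.mod_eq_of_lt h]
      rw [e1, e2]
    · have hr' : r = d := by omega
      subst hr'
      show φ^[(q * d + d) / d] (p.getVert ((q * d + d) % d)) = _
      have e1 : (q * d + d) / d = q + 1 := by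
        rw [← Nat.succ_mul, Nat.mul_div_cancel _ hd0]
      have e2 : (q * d + d) % d = 0 := by
        rw [← Nat.succ_mul, Nat.mul_mod_left]
      rw [e1, e2, h0, hend]
  have hdec : ∀ i : ℕ, ∃ q r, r < d ∧ i = q * d + r := fun i =>
    ⟨i / d, i % d, Nat.mod_lt _ hd0, (Nat.div_add_mod' i d).symm⟩
  have hpinj : ∀ r s, r ≤ d → s ≤ d → p.getVert r = p.getVert s → r = s := by
    intro r s hr hs h
    exact hp.getVert_injOn (by simpa [hpl'] using hr) (by simpa [hpl'] using hs) h
  have hA : ∀ i, T.Adj (c i) (c (i + 1)) := by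
    intro i
    obtain ⟨q, r, hr, rfl⟩ := hdec i
    rw [hc q r hr.le, add_assoc, hc q (r + 1) (by omega)]
    exact hadj q r hr
  have hB : ∀ i, c i ≠ c (i + 2) := by
    intro i
    obtain ⟨q, r, hr, rfl⟩ := hdec i
    rcases Nat.lt_or_ge (r + 1) d with h | h
    · rw [hc q r hr.le, add_assoc, hc q (r + 2) (by omega)]
      intro he
      have := hpinj r (r + 2) hr.le (by omega) (hinj q he)
      omega
    · have hr' : r + 1 = d := by omega
      have e1 : q * d + r + 2 = (q + 1) * d + 1 := by
        rw [Nat.succ_mul]; omega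
      rw [e1, hc q r hr.le, hc (q + 1) 1 (by omega), Function.iterate_succ_apply]
      intro he
      have h3 := hinj q he
      rcases Nat.lt_or_ge 1 d with h4 | h4
      · have h5 := hv (p.getVert 1)
        rw [← h3] at h5
        have h6 : T.dist (p.getVert 1) (p.getVert r) ≤ r - 1 := by
          have h7 : ∀ s, T.dist (p.getVert 1) (p.getVert (1 + s)) ≤ s := by
            intro s
            induction s with
            | zero => simp
            | succ s ih =>
              rcases Nat.lt_or_ge (1 + s) p.length with h8 | h8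
              · have h9 : T.Adj (p.getVert (1 + s)) (p.getVert (1 + s + 1)) :=
                  p.adj_getVert_succ h8
                have h10 := hT.connected.dist_triangle (u := p.getVert 1)
                  (v := p.getVert (1 + s)) (w := p.getVert (1 + (s + 1)))
                have h11 : T.dist (p.getVert (1 + s)) (p.getVert (1 + (s + 1))) = 1 :=
                  dist_eq_one_iff_adj.2 h9
                omega
              · have h9 : p.getVert (1 + (s + 1)) = p.getVert (1 + s) := by
                  rw [p.getVert_of_length_le h8, p.getVert_of_length_le (by omega)]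
                rw [h9]
                omega
          have h8 := h7 (r - 1)
          have h9 : 1 + (r - 1) = r := by omega
          rwa [h9] at h8
        omega
      · have h5 : r = 0 := by omega
        have h6 : d = 1 := by omega
        have h7 : p.getVert 1 = φ v := by rw [← h6, ← hpl', p.getVert_length]
        rw [h5, h0, h7] at h3
        exact h2 v h3.symm
  refine ⟨v, fun n => ?_⟩
  have h3 := (Tr_nb hT c hA hB (n * d)).1
  have h4 : c 0 = v := by
    have := hc 0 0 (Nat.zero_le _)
    simpa [h0] using this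
  have h5 : c (n * d) = φ^[n] v := by
    have := hc n 0 (Nat.zero_le _)
    simpa [h0] using this
  rw [h4, h5] at h3
  rw [h3]
  exact Nat.le_mul_of_pos_right n hd0

end Pool.Agent.H5.CL
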