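import Pool.Agent.H5.CL.Bd
import Pool.Agent.H5.CL.Tr

/-!
MP_37b730_gt, closure properties of `CP` (helper5): translation lengths on trees.
-/

set_option autoImplicit false
set_option linter.all false

namespace Pool.Agent.H5.CL

open Pool.Agent.H5.CP Pool.Agent.H75.CP

section tree

variable {Γ V : Type} [Group Γ] [MulAction Γ V] {T : SimpleGraph V}

/-- the automorphism of the tree given by a group element -/
def Cl_iso (hact : ∀ (g : Γ) (v w : V), T.Adj v w → T.Adj (g • v) (g • w)) (g : Γ) : T ≃g T where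
  toEquiv := MulAction.toPerm g
  map_rel_iff' := by
    intro v w
    constructor
    · intro h
      have := hact g⁻¹ _ _ h
      simpa using this
    · exact hact g v w

theorem Cl_dist_le (hT : T.IsTree)
    (hact : ∀ (g : Γ) (v w : V), T.Adj v w → T.Adj (g • v) (g • w)) (g : Γ) (v w : V) :
    T.dist (g • v) (g • w) ≤ T.dist v w := by
  obtain ⟨p, hp⟩ := (hT.connected v w).exists_walk_length_eq_dist
  have h1 := SimpleGraph.dist_le (p.map (Cl_iso hact g).toHom)
  rw [SimpleGraph.Walk.length_map, hp] at h1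
  exact h1

theorem Cl_dist_pow (hT : T.IsTree)
    (hact : ∀ (g : Γ) (v w : V), T.Adj v w → T.Adj (g • v) (g • w)) (z : Γ) (v0 : V) (m : ℕ) :
    T.dist v0 (z ^ m • v0) ≤ m * T.dist v0 (z • v0) := by
  induction m with
  | zero => simp
  | succ m ih =>
    have h1 := hT.connected.dist_triangle (u := v0) (v := z ^ m • v0) (w := z ^ (m + 1) • v0)
    have h2 : T.dist (z ^ m • v0) (z ^ (m + 1) • v0) ≤ T.dist v0 (z • v0) := by
      rw [pow_succ, mul_smul]
      exact Cl_dist_le hT hact _ _ _
    rw [Nat.succ_mul]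
    omega

theorem Cl_hyp (hT : T.IsTree)
    (hact : ∀ (g : Γ) (v w : V), T.Adj v w → T.Adj (g • v) (g • w)) (z u : Γ) (v0 : V) (n : ℕ)
    (hu : u ^ n = z) (h2 : ∀ v : V, u • u • v ≠ v) : n ≤ T.dist v0 (z • v0) := by
  obtain ⟨v, hv⟩ := Tr_main hT (Cl_iso hact u) (fun v => h2 v)
  have hit : ∀ m : ℕ, (Cl_iso hact u)^[m] v = u ^ m • v := by
    intro m
    induction m with
    | zero => simp
    | succ m ih =>
      rw [Function.iterate_succ_apply', ih, pow_succ', mul_smul]
      rfl
  by_contra hcon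
  push Not at hcon
  have h3 : ∀ m : ℕ, n * m ≤ m * T.dist v0 (z • v0) + 2 * T.dist v v0 := by
    intro m
    have h4 := hv (n * m)
    rw [hit, pow_mul, hu] at h4
    have h5 := hT.connected.dist_triangle (u := v) (v := v0) (w := z ^ m • v)
    have h6 := hT.connected.dist_triangle (u := v0) (v := z ^ m • v0) (w := z ^ m • v)
    have h7 := Cl_dist_le hT hact (z ^ m) v0 v
    have h8 := Cl_dist_pow hT hact z v0 m
    have h9 : T.dist v0 v = T.dist v v0 := SimpleGraph.dist_comm
    omega
  have h4 := h3 (2 * T.dist v v0 + 1)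
  set a := T.dist v v0
  set D := T.dist v0 (z • v0)
  nlinarith

end tree

end Pool.Agent.H5.CL
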