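import Pool.Agent.H5.CL.Cl

/-!
MP_37b730_gt, closure properties of `CP` (helper5): the combination theorem.
-/

set_option autoImplicit false
set_option linter.all false

namespace Pool.Agent.H5.CL

open Pool.Agent.H5.CP Pool.Agent.H75.CP

/-- roots of a central element of a virtual extension of groups of type FP in `CP` -/
theorem Tree_v {Δ : Type} [Group Δ] (htf : ∀ (x : Δ) (n : ℕ), 0 < n → x ^ n = 1 → x = 1)
    (S : Subgroup Δ) [S.FiniteIndex] (N : Subgroup S) [N.Normal] (hN : IsTypeFP N)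
    (hN' : InCP N) (hQ : IsTypeFP (S ⧸ N)) (hQ' : InCP (S ⧸ N)) (z : Δ)
    (hz : z ∈ Subgroup.center Δ) (hz1 : z ≠ 1) :
    ∃ M : ℕ, ∀ (n : ℕ) (u : Δ), 0 < n → u ^ n = z → n ≤ M := by
  have hm : 0 < S.index.factorial := Nat.factorial_pos _
  set m := S.index.factorial with hmdef
  have hmem : ∀ x : Δ, x ^ m ∈ S := by
    intro x
    obtain ⟨i, hi0, hi, hx⟩ := Subgroup.exists_pow_mem_of_index_ne_zero
      (H := S) (Subgroup.FiniteIndex.index_ne_zero) x
    obtain ⟨c, hc⟩ := Nat.dvd_factorial hi0 hi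
    rw [hmdef, hc, pow_mul]
    exact S.pow_mem hx c
  have hz1' : z ^ m ≠ 1 := fun h => hz1 (htf z m hm h)
  have hzc : (⟨z ^ m, hmem z⟩ : S) ∈ Subgroup.center S := by
    rw [Subgroup.mem_center_iff]
    intro g
    exact Subtype.ext (Subgroup.mem_center_iff.1 ((Subgroup.center Δ).pow_mem hz _) g.1)
  have hun : ∀ (n : ℕ) (u : Δ), u ^ n = z →
      (⟨u ^ m, hmem u⟩ : S) ^ n = ⟨z ^ m, hmem z⟩ := by
    intro n u hu
    apply Subtype.ext
    show (u ^ m) ^ n = z ^ m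
    rw [← hu, ← pow_mul, ← pow_mul, mul_comm]
  by_cases hzN : (⟨z ^ m, hmem z⟩ : S) ∈ N
  · have hzcN : (⟨⟨z ^ m, hmem z⟩, hzN⟩ : N) ∈ Subgroup.center N := by
      rw [Subgroup.mem_center_iff]
      intro g
      exact Subtype.ext (Subgroup.mem_center_iff.1 hzc g.1)
    obtain ⟨M, hM⟩ := Bd_main hN hN' _ hzcN (fun h =>
      hz1' (congrArg (fun x : N => ((x : S) : Δ)) h))
    refine ⟨M, fun n u hn hu => ?_⟩
    have h1 : (QuotientGroup.mk (⟨u ^ m, hmem u⟩ : S) : S ⧸ N) ^ n = 1 := by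
      rw [← QuotientGroup.mk_pow, hun n u hu]
      exact (QuotientGroup.eq_one_iff _).2 hzN
    have h2 : (⟨u ^ m, hmem u⟩ : S) ∈ N := (QuotientGroup.eq_one_iff _).1 (Bd_tf hQ _ _ hn h1)
    exact hM n ⟨_, h2⟩ hn (Subtype.ext (by simpa using hun n u hu))
  · have hzcQ : (QuotientGroup.mk (⟨z ^ m, hmem z⟩ : S) : S ⧸ N) ∈ Subgroup.center (S ⧸ N) :=
      GysD_center N _ hzc
    obtain ⟨M, hM⟩ := Bd_main hQ hQ' _ hzcQ (fun h => hzN ((QuotientGroup.eq_one_iff _).1 h))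
    refine ⟨M, fun n u hn hu => hM n (QuotientGroup.mk (⟨u ^ m, hmem u⟩ : S)) hn ?_⟩
    rw [← QuotientGroup.mk_pow, hun n u hu]

/-- the combination theorem -/
theorem Tree_main {Γ V : Type} [Group Γ] [MulAction Γ V] (hΓ : IsTypeFP Γ) (T : SimpleGraph V)
    (hT : T.IsTree) (hact : ∀ (g : Γ) (v w : V), T.Adj v w → T.Adj (g • v) (g • w))
    (hfin : Finite (MulAction.orbitRel.Quotient Γ V))
    (hst : ∀ v : V, ∃ S : Subgroup (MulAction.stabilizer Γ v), S.FiniteIndex ∧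
      ∃ (N : Subgroup S) (_ : N.Normal), IsTypeFP N ∧ InCP N ∧ IsTypeFP (S ⧸ N) ∧
        InCP (S ⧸ N)) :
    InCP Γ := by
  classical
  refine Bd_if hΓ fun z hz hz1 => ?_
  have hz2 : z ^ 2 ≠ 1 := fun h => hz1 (Bd_tf hΓ z 2 (by norm_num) h)
  have hz2c := (Subgroup.center Γ).pow_mem hz 2
  have hex : ∀ o : MulAction.orbitRel.Quotient Γ V, ∃ B : ℕ, ∀ (n : ℕ) (x : Γ), 0 < n →
      x • Quotient.out o = Quotient.out o → x ^ n = z ^ 2 → n ≤ B := by
    intro o
    by_cases hs : z ^ 2 • Quotient.out o = Quotient.out o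
    · have hzs : z ^ 2 ∈ MulAction.stabilizer Γ (Quotient.out o) := hs
      have hzc : (⟨z ^ 2, hzs⟩ : MulAction.stabilizer Γ (Quotient.out o)) ∈
          Subgroup.center (MulAction.stabilizer Γ (Quotient.out o)) := by
        rw [Subgroup.mem_center_iff]
        intro g
        exact Subtype.ext (Subgroup.mem_center_iff.1 hz2c g.1)
      obtain ⟨S, hS, N, hNn, hN, hN', hQ, hQ'⟩ := hst (Quotient.out o)
      obtain ⟨B, hB⟩ := Tree_v (Δ := MulAction.stabilizer Γ (Quotient.out o))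
        (fun x n hn hx => Subtype.ext (Bd_tf hΓ x.1 n hn (by simpa using congrArg Subtype.val hx)))
        S N hN hN' hQ hQ' _ hzc (fun h => hz2 (congrArg Subtype.val h))
      refine ⟨B, fun n x hn hx hxn => hB n ⟨x, hx⟩ hn (Subtype.ext (by simpa using hxn))⟩
    · refine ⟨0, fun n x hn hx hxn => ?_⟩
      exfalso
      apply hs
      rw [← hxn]
      exact (MulAction.stabilizer Γ (Quotient.out o)).pow_mem
        (MulAction.mem_stabilizer_iff.2 hx) n
  choose B hB using hex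
  obtain ⟨M, hM⟩ : ∃ M : ℕ, ∀ o, B o ≤ M := by
    have := Fintype.ofFinite (MulAction.orbitRel.Quotient Γ V)
    exact ⟨Finset.univ.sup B, fun o => Finset.le_sup (Finset.mem_univ o)⟩
  obtain ⟨v0⟩ := hT.connected.nonempty
  refine ⟨2, M + T.dist v0 (z • v0), Nat.prime_two, ?_⟩
  rintro ⟨u, hu⟩
  have h5 := Nat.lt_two_pow_self (n := M + T.dist v0 (z • v0))
  by_cases h2 : ∀ v : V, u • u • v ≠ v
  · have := Cl_hyp hT hact z u v0 _ hu h2
    omega
  · push Not at h2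
    obtain ⟨w, hw⟩ := h2
    obtain ⟨g, hg⟩ := FunA_ex (G := Γ) w
    have h3 := hB (Quotient.mk (MulAction.orbitRel Γ V) w) (2 ^ (M + T.dist v0 (z • v0)))
      (g * (u * u) * g⁻¹) (pow_pos (by norm_num) _) (by
        rw [← hg, mul_smul, mul_smul, inv_smul_smul, mul_smul, hw]) (by
        rw [conj_pow, (Commute.refl u).mul_pow, hu,
          Subgroup.mem_center_iff.1 ((Subgroup.center Γ).mul_mem hz hz) g,
          mul_inv_cancel_right, pow_two])
    have h4 := hM (Quotient.mk (MulAction.orbitRel Γ V) w)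
    omega

end Pool.Agent.H5.CL
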